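import Pool.Agent.Helper50_CN2.THe5
import Pool.Agent.Helper33_CON.GH6

/-!
# Squad CN2: module T_HE6 (type E_7)
-/

namespace Pool.Agent.CN2.H33

open Pool.Agent.H25Cong Pool.Agent.CON Pool.Agent.CN2 Pool.Agent.CON.H33 Pool.Agent.CN2.H50

noncomputable section

variable {M : Type} [AddCommGroup M] {b : M → M → ℤ} {C : Set M} {s : ℤ}

/-- A root with the same signs is equal or opposite modulo the frame. -/
theorem same6 (hb : PD b) (hC : Irr b C s) {F : Fin 6 → M}
    (hF : DFr b C s 6 F) {α : M} (hα : α ∈ C) {ε : Fin 6 → ℤ}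
    (hε : ∀ i, ε i = 1 ∨ ε i = -1) (hαF : ∀ i, b α (F i) = ε i * s) :
    ∀ β ∈ C, (∀ i, b β (F i) = ε i * s) → β = α ∨ (2 : ℤ) • (α + β) = ∑ i, ε i • F i := by
  intro β hβ hβF
  have hs := hC.pos
  obtain ⟨hF1, hF2, hF3⟩ := id hF
  have hPα := norm_proj6 hb hC hF hα hε hαF
  have hεε : ∀ i, ε i * ε i = 1 := by
    intro i
    rcases hε i with h | h <;> rw [h] <;> norm_num
  have h1 := inner_proj hb hF1 hF2 hαF hβF
  have h6 : ∑ i, ε i * ε i = 6 := by simp [hεε]
  rw [h6] at h1
  have hPβ := norm_proj6 hb hC hF hβ hε hβF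
  obtain ⟨k, hk⟩ := hC.dvd α hα β hβ
  rw [hk] at h1
  have hcs := hb.cs ((4 : ℤ) • α - ∑ i, ε i • F i) ((4 : ℤ) • β - ∑ i, ε i • F i)
  rw [hPα, hPβ, h1] at hcs
  have h2 : (16 * k - 24) ^ 2 ≤ 64 := by
    have : s ^ 2 * ((16 * k - 24) ^ 2) ≤ s ^ 2 * 64 := by nlinarith
    exact le_of_mul_le_mul_left this (by positivity)
  have h3 : k = 1 ∨ k = 2 := by
    have : 1 ≤ k := by nlinarith
    have : k ≤ 2 := by nlinarith
    omega
  rcases h3 with h3 | h3
  · right
    have h4 : ((4 : ℤ) • α - ∑ i, ε i • F i) + ((4 : ℤ) • β - ∑ i, ε i • F i) = 0 := by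
      apply hb.eq_zero
      rw [hb.add_left, hb.add_right, hb.add_right, hb.symm ((4 : ℤ) • β - _)
        ((4 : ℤ) • α - _), hPα, hPβ, h1, h3]
      linarith
    have h5 : (2 : ℤ) • ((2 : ℤ) • (α + β) - ∑ i, ε i • F i) = 0 := by
      rw [← h4]; module
    have h6 := hb.zsmul_eq_zero (by norm_num) h5
    rwa [sub_eq_zero] at h6
  · left
    have h4 : α - β = 0 := by
      apply hb.eq_zero
      rw [hb.sub_left, hb.sub_right, hb.sub_right, hb.symm β α, hk, h3, hC.norm α hα,
        hC.norm β hβ]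
      linarith
    rw [sub_eq_zero] at h4
    exact h4.symm

theorem prod_pm {f : Fin 6 → ℤ} (hf : ∀ i, f i = 1 ∨ f i = -1) :
    ∏ i, f i = 1 ∨ ∏ i, f i = -1 := by
  have : (∏ i, f i) * (∏ i, f i) = 1 := by
    rw [← Finset.prod_mul_distrib]
    apply Finset.prod_eq_one
    intro i _
    rcases hf i with h | h <;> rw [h] <;> norm_num
  exact mul_self_eq_one_iff.mp this

theorem t_he6 (hE : G_EXT) (hT : G_TYP) (hFl : G_FLP) : T_HE 6 7 := by
  intro M _ b C s F₀ α hb hC hF₀ hmax hα ⟨ε₀, hε₀, hαF₀⟩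
  have hs := hC.pos
  -- normalization of the signs
  let F : Fin 6 → M := fun i => (-ε₀ i) • F₀ i
  have hF : DFr b C s 6 F := DFr_sign hb hC hF₀ (η := fun i => -ε₀ i) (fun i => by
    rcases hε₀ i with h | h <;> rw [h] <;> norm_num)
  have hαF : ∀ i, b α (F i) = -s := by
    intro i
    change b α ((-ε₀ i) • F₀ i) = -s
    rw [hb.zsmul_right, hαF₀]
    rcases hε₀ i with h | h <;> rw [h] <;> ring
  have hαF' : ∀ i, b α (F i) = (fun _ => -1 : Fin 6 → ℤ) i * s := by
    intro i
    rw [hαF]; ring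
  have hm1 : ∀ i, (fun _ => -1 : Fin 6 → ℤ) i = 1 ∨ (fun _ => -1 : Fin 6 → ℤ) i = -1 :=
    fun _ => Or.inr rfl
  have hno : ∀ β ∈ C, ∀ i0, (b β (F i0) = 2 * s ∨ b β (F i0) = - (2 * s)) →
      (∀ j, j ≠ i0 → b β (F j) = 0) → False := by
    intro β hβ i0 h1 h2
    obtain ⟨F', hF'⟩ := hE M b C s 6 F β i0 hb hC (by norm_num) hF hβ h1 h2
    exact hmax 7 (by norm_num) F' hF'
  obtain ⟨hF1, hF2, hF3⟩ := id hF
  set G : AddSubgroup M := AddSubgroup.closure ({β | β ∈ C ∧ InD F β} ∪ {α}) with hG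
  have hsub : AddSubgroup.closure {γ | γ ∈ C ∧ InD F γ} ≤ G :=
    AddSubgroup.closure_mono Set.subset_union_left
  have hαG : α ∈ G := AddSubgroup.subset_closure (Or.inr rfl)
  have hDG : ∀ β ∈ C, InD F β → β ∈ G := fun β hβ h =>
    AddSubgroup.subset_closure (Or.inl ⟨hβ, h⟩)
  -- roots with the same signs
  have hsame : ∀ β ∈ C, (∀ i, b β (F i) = (fun _ => -1 : Fin 6 → ℤ) i * s) → β ∈ G := by
    intro β hβ hβF
    rcases same6 hb hC hF hα hm1 hαF' β hβ hβF with h | h
    · rw [h]; exact hαG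
    · obtain ⟨w1, hw1, hw1'⟩ := (hF3 0 1 (by decide)).1
      obtain ⟨w2, hw2, hw2'⟩ := (hF3 2 3 (by decide)).1
      obtain ⟨w3, hw3, hw3'⟩ := (hF3 4 5 (by decide)).1
      have g1 : w1 ∈ G := hDG w1 hw1 ⟨0, 1, by decide, Or.inl hw1'⟩
      have g2 : w2 ∈ G := hDG w2 hw2 ⟨2, 3, by decide, Or.inl hw2'⟩
      have g3 : w3 ∈ G := hDG w3 hw3 ⟨4, 5, by decide, Or.inl hw3'⟩
      have h1 : (2 : ℤ) • (α + β) = (2 : ℤ) • (-(w1 + w2 + w3)) := by
        rw [h, smul_neg, smul_add, smul_add, hw1', hw2', hw3', Fin.sum_univ_six]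
        module
      have h2 := two_inj hb h1
      have h3 : β = -(w1 + w2 + w3) - α := by
        rw [← h2]; abel
      rw [h3]
      exact sub_mem (neg_mem (add_mem (add_mem g1 g2) g3)) hαG
  -- half roots
  have hhalf : ∀ β ∈ C, ∀ η : Fin 6 → ℤ, (∀ i, η i = 1 ∨ η i = -1) →
      (∀ i, b β (F i) = η i * s) → β ∈ G := by
    intro β hβ η hη hβF
    rcases prod_pm hη with h | h
    · obtain ⟨β', hβ', hβ'F, hsp⟩ := flipsD hFl hb hC hF hm1 _ β η le_rfl hβ hη hβF (by
        rw [h]
        simp)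
      have h1 := hsame β' hβ' hβ'F
      have h2 := add_mem (hsub hsp) h1
      rwa [sub_add_cancel] at h2
    · exfalso
      set ε' : Fin 6 → ℤ := fun i => if i = 0 then -1 else 1 with hε'
      have hε'1 : ∀ i, ε' i = 1 ∨ ε' i = -1 := by
        intro i
        by_cases hi : i = 0
        · right; simp only [hε', if_pos hi]
        · left; simp only [hε', if_neg hi]
      have hprod' : ∏ i, η i = ∏ i, ε' i := by
        rw [h]
        simp only [Fin.prod_univ_six, hε']
        norm_num [Fin.ext_iff]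
      obtain ⟨β', hβ', hβ'F, -⟩ := flips hFl hb hC hF hε'1 _ β η le_rfl hβ hη hβF hprod'
      have h1 := inner_proj hb hF1 hF2 hαF' hβ'F
      have h4 : ∑ i, (fun _ => -1 : Fin 6 → ℤ) i * ε' i = -4 := by
        simp only [Fin.sum_univ_six, hε']
        norm_num [Fin.ext_iff]
      rw [h4] at h1
      have hPα := norm_proj6 hb hC hF hα hm1 hαF'
      have hPβ := norm_proj6 hb hC hF hβ' hε'1 hβ'F
      obtain ⟨k, hk⟩ := hC.dvd α hα β' hβ'
      rw [hk] at h1
      have hcs := hb.cs ((4 : ℤ) • α - ∑ i, (fun _ => -1 : Fin 6 → ℤ) i • F i)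
        ((4 : ℤ) • β' - ∑ i, ε' i • F i)
      rw [hPα, hPβ, h1] at hcs
      have h2 : (16 * k + 16) ^ 2 ≤ 64 := by
        have : s ^ 2 * ((16 * k + 16) ^ 2) ≤ s ^ 2 * 64 := by nlinarith
        exact le_of_mul_le_mul_left this (by positivity)
      have h3 : k = -1 := by
        have h5 : -2 < k := by nlinarith
        have h6 : k < 0 := by nlinarith
        omega
      have h5 : α + β' ∈ C := by
        have := hC.refl β' hβ' α hα (-1) (by rw [hb.symm, hk, h3]; ring)
        rwa [neg_one_smul, sub_neg_eq_add] at this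
      refine hno (α + β') h5 0 ?_ ?_
      · right
        rw [hb.add_left, hαF, hβ'F]
        simp [hε']; ring
      · intro j hj
        rw [hb.add_left, hαF, hβ'F]
        simp [hε', hj]
  -- all the roots are in the closure
  have hD : {x | x ∈ C ∧ x ∈ G} = C := by
    refine hC.conn _ (fun x hx => hx.1) ⟨α, hα, hαG⟩ ?_
    rintro x ⟨hx, hxG⟩ y hy hyD
    have hy0 : (∀ i, b y (F i) = 0) ∧ b y α = 0 := by
      rcases hT M b C s 6 F y hb hC (by norm_num) hF hy with h | h | h | h
      · refine ⟨h, ?_⟩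
        by_contra hne
        apply hyD
        refine ⟨hy, ?_⟩
        obtain ⟨k, hk⟩ := hC.dvd y hy α hα
        have hrefl := hC.refl y hy α hα k (by rw [hk]; ring)
        have h1 : ∀ i, b (α - k • y) (F i) = (fun _ => -1 : Fin 6 → ℤ) i * s := by
          intro i
          rw [hb.sub_left, hb.zsmul_left, h i, hαF]; ring
        have h2 := hsame _ hrefl h1
        have hk0 : k ≠ 0 := by
          intro h0
          rw [h0, mul_zero] at hk
          exact hne hk
        have hcs := hb.cs y α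
        rw [hk, hC.norm y hy, hC.norm α hα] at hcs
        have h3 : k ^ 2 ≤ 4 := by
          have : s ^ 2 * k ^ 2 ≤ s ^ 2 * 4 := by nlinarith
          exact le_of_mul_le_mul_left this (by positivity)
        have h4 : k = 1 ∨ k = -1 ∨ k = 2 ∨ k = -2 := by
          have h5 : -3 < k := by nlinarith
          have h6 : k < 3 := by nlinarith
          omega
        have h5 : k • y ∈ G := by
          have h6 : k • y = α - (α - k • y) := by abel
          rw [h6]
          exact sub_mem hαG h2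
        have hcase : ∀ c : ℤ, (c = 1 ∨ c = -1) → b y α = s * (2 * c) → False := by
          intro c hc hkc
          have h7 : α - c • y = 0 := by
            apply hb.eq_zero
            rw [hb.sub_left, hb.sub_right, hb.sub_right, hb.zsmul_left, hb.zsmul_right,
              hb.zsmul_left, hb.zsmul_right, hb.symm α y, hkc, hC.norm α hα, hC.norm y hy]
            rcases hc with rfl | rfl <;> linarith
          rw [sub_eq_zero] at h7
          have h8 := hαF 0
          rw [h7, hb.zsmul_left, h 0, mul_zero] at h8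
          omega
        rcases h4 with h4 | h4 | h4 | h4
        · rw [h4, one_smul] at h5
          exact h5
        · rw [h4, neg_one_smul] at h5
          exact neg_mem_iff.1 h5
        · exact (hcase 1 (Or.inl rfl) (by rw [hk, h4]; ring)).elim
        · exact (hcase (-1) (Or.inr rfl) (by rw [hk, h4]; ring)).elim
      · exact absurd ⟨hy, hDG y hy h⟩ hyD
      · obtain ⟨i0, h1, h2⟩ := h
        exact (hno y hy i0 h1 h2).elim
      · obtain ⟨-, η, hη, hyF⟩ := h
        exact absurd ⟨hy, hhalf y hy η hη hyF⟩ hyD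
    -- y is orthogonal to G
    have horth : ∀ w ∈ G, b y w = 0 := by
      intro w hw
      rw [hG] at hw
      induction hw using AddSubgroup.closure_induction with
      | mem w hw =>
        rcases hw with ⟨_, i, j, -, h1⟩ | hw
        · have h2 : 2 * b y w = 0 := by
            rw [← hb.zsmul_right]
            rcases h1 with h1 | h1 | h1 <;> rw [h1]
            · rw [hb.add_right, hy0.1 i, hy0.1 j, add_zero]
            · rw [hb.sub_right, hy0.1 i, hy0.1 j, sub_zero]
            · rw [hb.neg_right, hb.add_right, hy0.1 i, hy0.1 j, add_zero, neg_zero]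
          omega
        · rw [Set.mem_singleton_iff] at hw
          rw [hw]
          exact hy0.2
      | zero => exact hb.zero_right y
      | add u v _ _ hu hv => rw [hb.add_right, hu, hv, add_zero]
      | neg u _ hu => rw [hb.neg_right, hu, neg_zero]
    rw [hb.symm]
    exact horth x hxG
  refine ⟨Or.inr (Or.inl rfl), F, α, hα, hF, hαF, fun x hx => ?_⟩
  have hle : AddSubgroup.closure C ≤ G := by
    rw [AddSubgroup.closure_le]
    intro x hx
    rw [← hD] at hx
    exact hx.2
  exact hle hx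

end

end Pool.Agent.CN2.H33
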